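import Mathlib

set_option autoImplicit false

/-! Project OG (helper798), job MN: limits of empirical measures. -/

namespace Pool.Agent.Y412.OG

open MeasureTheory Filter Topology

section

variable {X : Type} [MetricSpace X] [CompactSpace X] [MeasurableSpace X] [BorelSpace X] {V : Type}

/-- the empirical measure -/
noncomputable def emp (s : Finset V) (t : V → X) : Measure X :=
  ((s.card : ENNReal))⁻¹ • ∑ v ∈ s, Measure.dirac (t v)

omit [MetricSpace X] [CompactSpace X] [BorelSpace X] in
theorem emp_prob (s : Finset V) (t : V → X) (hs : s.card ≠ 0) :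
    IsProbabilityMeasure (emp s t) := by
  constructor
  unfold emp
  rw [Measure.smul_apply, Measure.finsetSum_apply]
  simp only [Measure.dirac_apply_of_mem (Set.mem_univ _), Finset.sum_const, nsmul_eq_mul, mul_one,
    smul_eq_mul]
  exact ENNReal.inv_mul_cancel (by exact_mod_cast hs) (ENNReal.natCast_ne_top _)

theorem int_cont {E : Type} [NormedAddCommGroup E] (μ : Measure X) [IsFiniteMeasure μ]
    {g : X → E} (hg : Continuous g) : Integrable g μ :=
  hg.integrable_of_hasCompactSupport (HasCompactSupport.of_compactSpace g)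

theorem emp_int {E : Type} [NormedAddCommGroup E] [NormedSpace ℝ E] [CompleteSpace E]
    (s : Finset V) (t : V → X) {g : X → E} (hg : Continuous g) :
    ∫ x, g x ∂(emp s t) = ((s.card : ℝ))⁻¹ • ∑ v ∈ s, g (t v) := by
  unfold emp
  rw [integral_smul_measure, integral_finsetSum_measure fun v _ => int_cont _ hg]
  simp only [integral_dirac, ENNReal.toReal_inv, ENNReal.toReal_natCast]

/-- limits of averages from limits of the averages of the test functions -/
theorem core (up : ℕ → Finset V) (hup : ∀ᶠ n in atTop, ((up n).card : ℝ) ≠ 0) (t : V → X)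
    (C : Set X) (hC : IsClosed C) (ht : ∀ v, t v ∈ C) (W : Set (X → ℂ))
    (hW : ∀ w ∈ W, Continuous w) (ν : Measure X)
    (hWl : ∀ w ∈ W, Tendsto (fun n => (((up n).card : ℝ))⁻¹ • ∑ v ∈ up n, w (t v)) atTop
      (𝓝 (∫ x, w x ∂ν))) (f : X → ℝ) (hf : Continuous f)
    (huniq : ∀ ν' : Measure X, IsProbabilityMeasure ν' → ν' Cᶜ = 0 →
      (∀ w ∈ W, ∫ x, w x ∂ν = ∫ x, w x ∂ν') → ∫ x, f x ∂ν = ∫ x, f x ∂ν') :
    Tendsto (fun n => (((up n).card : ℝ))⁻¹ • ∑ v ∈ up n, f (t v)) atTop
      (𝓝 (∫ x, f x ∂ν)) := by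
  classical
  obtain ⟨n0, hn0⟩ := hup.exists
  have hc0 : (up n0).card ≠ 0 := by exact_mod_cast hn0
  obtain ⟨v0, -⟩ := Finset.card_pos.1 (Nat.pos_of_ne_zero hc0)
  have hne : C.Nonempty := ⟨t v0, ht v0⟩
  rw [tendsto_iff_ultrafilter]
  intro U hU
  have hex : ∀ n, ∃ p : ProbabilityMeasure X, (up n).card ≠ 0 → (p : Measure X) = emp (up n) t := by
    intro n
    by_cases h : (up n).card ≠ 0
    · exact ⟨⟨emp (up n) t, emp_prob _ _ h⟩, fun _ => rfl⟩
    · exact ⟨⟨Measure.dirac (t v0), inferInstance⟩, fun h' => absurd h' h⟩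
  choose P hP using hex
  obtain ⟨ν', -, hν'⟩ := isCompact_univ.ultrafilter_le_nhds (U.map P) (by simp)
  have hν'' : Tendsto P (U : Filter ℕ) (𝓝 ν') := hν'
  have key : ∀ g : X → ℂ, Continuous g →
      Tendsto (fun n => (((up n).card : ℝ))⁻¹ • ∑ v ∈ up n, g (t v)) (U : Filter ℕ)
        (𝓝 (∫ x, g x ∂(ν' : Measure X))) := by
    intro g hg
    have h1 := (ProbabilityMeasure.tendsto_iff_forall_integral_rclike_tendsto ℂ).1 hν''
      (BoundedContinuousFunction.mkOfCompact ⟨g, hg⟩)
    refine h1.congr' ?_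
    filter_upwards [hU hup] with n hn
    have hn' : (up n).card ≠ 0 := by exact_mod_cast hn
    rw [hP n hn']
    exact emp_int (up n) t hg
  have hnull : (ν' : Measure X) Cᶜ = 0 := by
    have hd : Continuous fun x : X => Metric.infDist x C := Metric.continuous_infDist_pt C
    have h1 := key (fun x => ((Metric.infDist x C : ℝ) : ℂ)) (Complex.continuous_ofReal.comp hd)
    have h2 : ∀ v, ((Metric.infDist (t v) C : ℝ) : ℂ) = 0 := fun v => by
      rw [Metric.infDist_zero_of_mem (ht v), Complex.ofReal_zero]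
    simp only [h2, Finset.sum_const_zero, smul_zero] at h1
    have h3 : ∫ x, ((Metric.infDist x C : ℝ) : ℂ) ∂(ν' : Measure X) = 0 :=
      (tendsto_nhds_unique h1 tendsto_const_nhds)
    rw [integral_complex_ofReal, Complex.ofReal_eq_zero,
      integral_eq_zero_iff_of_nonneg (fun x => Metric.infDist_nonneg) (int_cont _ hd)] at h3
    have h4 : ∀ᵐ x ∂(ν' : Measure X), x ∈ C := by
      filter_upwards [h3] with x hx
      exact (hC.mem_iff_infDist_zero hne).2 hx
    exact h4
  have hw : ∀ w ∈ W, ∫ x, w x ∂ν = ∫ x, w x ∂(ν' : Measure X) := fun w hw =>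
    tendsto_nhds_unique ((hWl w hw).mono_left hU) (key w (hW w hw))
  rw [huniq (ν' : Measure X) inferInstance hnull hw]
  have h5 := (Complex.continuous_re.tendsto _).comp
    (key (fun x => ((f x : ℝ) : ℂ)) (Complex.continuous_ofReal.comp hf))
  rw [integral_complex_ofReal, Complex.ofReal_re] at h5
  refine h5.congr fun n => ?_
  simp only [Function.comp]
  rw [Complex.real_smul, Complex.re_ofReal_mul, Complex.re_sum]
  simp only [Complex.ofReal_re, smul_eq_mul]

end

end Pool.Agent.Y412.OG
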