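import Pool.Agent.Y798.OG.Stm2
import Pool.Agent.Y412.OG.MnCore

set_option autoImplicit false

/-! Project OG (helper798), job MN: natural mean values from words to symmetric functions. -/

namespace Pool.Agent.Y412.OG

open Complex Filter Topology MeasureTheory UnitAddTorus NumberField IsDedekindDomain
  Pool.Agent.W540.BE Pool.Agent.TH553.RS Pool.Agent.TH553.ST Pool.Agent.Y798.FC
  Pool.Agent.Y798.OG
open Pool.Agent.Y139.ID (wordFun chiW continuous_chiW)

theorem isClosed_classes {N : ℕ} {I : Type} [Fintype I] (P : I → Part N) :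
    IsClosed (classes P) := by
  unfold classes
  exact isClosed_iUnion_of_finite fun i => (isCompact_range (P i).cemb).isClosed

theorem t (huniq : StmUniq) : StmMn := by
  intro N I _ P hA K _ _ t ht ν hν hνc hmn f hf hfS
  exact core (fun n => upto K n) card_ev t (classes P) (isClosed_classes P) ht (wordFun N)
    (by
      rintro w ⟨r, k, -, rfl⟩
      exact continuous_chiW k) ν (by
      rintro w ⟨r, k, hk, rfl⟩
      exact hmn r k hk) f hf
    fun ν' h1 h2 h3 => huniq N I P hA ν ν' hν h1 hνc h2
      (fun r k hk => h3 _ ⟨r, k, hk, rfl⟩) f hf hfS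

end Pool.Agent.Y412.OG
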